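import Mathlib

/-!
# MP_c62aed_lc, SDP part: square of the Hilbert-Schmidt norm and the matrix inequality
`|(X - Y)^2| <= |X^2 - Y^2|` for positive semidefinite real matrices
-/

set_option autoImplicit false

open Matrix Finset

namespace Pool.Agent.H62.SDP

variable {n m : Type} [Fintype n] [Fintype m]

/-- square of the Hilbert-Schmidt norm -/
def hs (A : Matrix n m ℝ) : ℝ := ∑ i, ∑ j, A i j ^ 2

theorem hs_nonneg (A : Matrix n m ℝ) : 0 ≤ hs A :=
  sum_nonneg fun _ _ => sum_nonneg fun _ _ => sq_nonneg _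

theorem hs_eq_trace (A : Matrix n m ℝ) : hs A = (Aᵀ * A).trace := by
  unfold hs Matrix.trace
  rw [sum_comm]
  refine sum_congr rfl fun j _ => ?_
  rw [Matrix.diag_apply, Matrix.mul_apply]
  refine sum_congr rfl fun i _ => ?_
  rw [Matrix.transpose_apply, sq]

variable [DecidableEq n]

theorem hs_conj (A U : Matrix n n ℝ) (h1 : U * Uᵀ = 1) : hs (Uᵀ * A * U) = hs A := by
  rw [hs_eq_trace, hs_eq_trace]
  have e : (Uᵀ * A * U)ᵀ * (Uᵀ * A * U) = Uᵀ * (Aᵀ * A) * U := by
    simp only [Matrix.transpose_mul, Matrix.transpose_transpose]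
    calc Uᵀ * (Aᵀ * U) * (Uᵀ * A * U) = Uᵀ * Aᵀ * (U * Uᵀ) * A * U := by
          simp only [Matrix.mul_assoc]
      _ = Uᵀ * (Aᵀ * A) * U := by rw [h1]; simp only [Matrix.mul_one, Matrix.mul_assoc]
  rw [e, Matrix.trace_mul_comm, ← Matrix.mul_assoc, h1, Matrix.one_mul]

theorem exists_diag (D : Matrix n n ℝ) (hD : Dᵀ = D) : ∃ (U : Matrix n n ℝ) (d : n → ℝ),
    Uᵀ * U = 1 ∧ U * Uᵀ = 1 ∧ Uᵀ * D * U = Matrix.diagonal d := by
  have hH : D.IsHermitian := by
    rw [Matrix.IsHermitian, Matrix.conjTranspose_eq_transpose_of_trivial]; exact hD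
  refine ⟨(hH.eigenvectorUnitary : Matrix n n ℝ), hH.eigenvalues, ?_, ?_, ?_⟩
  · have := Matrix.UnitaryGroup.star_mul_self hH.eigenvectorUnitary
    rwa [Matrix.star_eq_conjTranspose, Matrix.conjTranspose_eq_transpose_of_trivial] at this
  · have := (Matrix.mem_unitaryGroup_iff).1 hH.eigenvectorUnitary.2
    rwa [Matrix.star_eq_conjTranspose, Matrix.conjTranspose_eq_transpose_of_trivial] at this
  · have := hH.conjStarAlgAut_star_eigenvectorUnitary
    rw [Unitary.conjStarAlgAut_apply] at this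
    simp only [star_star, Unitary.coe_star, Matrix.star_eq_conjTranspose,
      Matrix.conjTranspose_eq_transpose_of_trivial] at this
    exact this

theorem psd_conj {X : Matrix n n ℝ} (hX : X.PosSemidef) (U : Matrix n n ℝ) :
    (Uᵀ * X * U).PosSemidef := by
  have := hX.conjTranspose_mul_mul_same U
  rwa [Matrix.conjTranspose_eq_transpose_of_trivial] at this

/-- the inequality if `X - Y` is diagonal -/
theorem mat_diag (X Y : Matrix n n ℝ) (hX : X.PosSemidef) (hY : Y.PosSemidef) (d : n → ℝ)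
    (hd : X - Y = Matrix.diagonal d) :
    hs ((X - Y) * (X - Y)) ≤ hs (X * X - Y * Y) := by
  have e : X * X - Y * Y = (1 / 2 : ℝ) • ((X + Y) * (X - Y) + (X - Y) * (X + Y)) := by
    have : (X + Y) * (X - Y) + (X - Y) * (X + Y) = (2 : ℝ) • (X * X - Y * Y) := by
      rw [two_smul]; noncomm_ring
    rw [this, smul_smul]; norm_num
  have hent : ∀ i j, (X * X - Y * Y) i j = (1 / 2) * ((X + Y) i j * (d i + d j)) := by
    intro i j
    rw [e, hd, Matrix.smul_apply, Matrix.add_apply, Matrix.mul_diagonal, Matrix.diagonal_mul,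
      smul_eq_mul]
    ring
  have hL : hs ((X - Y) * (X - Y)) = ∑ i, d i ^ 4 := by
    rw [hd, Matrix.diagonal_mul_diagonal]
    unfold hs
    refine sum_congr rfl fun i _ => ?_
    rw [sum_eq_single i]
    · rw [Matrix.diagonal_apply_eq]; ring
    · intro j _ hj
      rw [Matrix.diagonal_apply_ne _ (Ne.symm hj)]; ring
    · intro h; exact absurd (mem_univ i) h
  rw [hL]
  unfold hs
  refine sum_le_sum fun i _ => ?_
  have h1 : ((X * X - Y * Y) i i) ^ 2 ≤ ∑ j, ((X * X - Y * Y) i j) ^ 2 :=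
    single_le_sum (f := fun j => ((X * X - Y * Y) i j) ^ 2) (fun _ _ => sq_nonneg _) (mem_univ i)
  refine le_trans ?_ h1
  rw [hent i i]
  have hx : 0 ≤ X i i := hX.diag_nonneg
  have hy : 0 ≤ Y i i := hY.diag_nonneg
  have hdi : X i i - Y i i = d i := by
    have := congrFun (congrFun hd i) i
    rwa [Matrix.sub_apply, Matrix.diagonal_apply_eq] at this
  rw [Matrix.add_apply]
  have h2 : d i ^ 2 ≤ (X i i + Y i i) ^ 2 := by
    rw [← hdi]; nlinarith [mul_nonneg hx hy]
  calc d i ^ 4 = d i ^ 2 * d i ^ 2 := by ring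
    _ ≤ (X i i + Y i i) ^ 2 * d i ^ 2 := mul_le_mul_of_nonneg_right h2 (sq_nonneg _)
    _ = (1 / 2 * ((X i i + Y i i) * (d i + d i))) ^ 2 := by ring

/-- for positive semidefinite matrices -/
theorem mat_ineq (X Y : Matrix n n ℝ) (hX : X.PosSemidef) (hY : Y.PosSemidef) :
    hs ((X - Y) * (X - Y)) ≤ hs (X * X - Y * Y) := by
  have hsym : (X - Y)ᵀ = X - Y := by
    have h1 := hX.1
    have h2 := hY.1
    rw [Matrix.IsHermitian, Matrix.conjTranspose_eq_transpose_of_trivial] at h1 h2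
    rw [Matrix.transpose_sub, h1, h2]
  obtain ⟨U, d, hU1, hU2, hd⟩ := exists_diag (X - Y) hsym
  have hconj : ∀ A B : Matrix n n ℝ, Uᵀ * (A * B) * U = (Uᵀ * A * U) * (Uᵀ * B * U) := by
    intro A B
    calc Uᵀ * (A * B) * U = Uᵀ * A * (U * Uᵀ) * B * U := by
          rw [hU2]; simp only [Matrix.mul_one, Matrix.mul_assoc]
      _ = _ := by simp only [Matrix.mul_assoc]
  have h := mat_diag (Uᵀ * X * U) (Uᵀ * Y * U) (psd_conj hX U) (psd_conj hY U) d (by
    rw [← hd, Matrix.mul_sub, Matrix.sub_mul])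
  rw [← hconj X X, ← hconj Y Y, ← Matrix.sub_mul, ← Matrix.mul_sub, ← Matrix.sub_mul,
    ← Matrix.mul_sub, ← hconj, hs_conj _ _ hU2, hs_conj _ _ hU2] at h
  exact h

end Pool.Agent.H62.SDP
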