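import Pool.Agent.H62.SDP.Mat

/-!
# MP_c62aed_lc, SDP part: one coordinate of the decomposition (general alphabet)
-/

set_option autoImplicit false

open Matrix Finset

namespace Pool.Agent.H62.SDP

section norm

variable {n m : Type} [Fintype n] [Fintype m]

/-- the Hilbert-Schmidt norm -/
noncomputable def hsn (A : Matrix n m ℝ) : ℝ := Real.sqrt (hs A)

theorem hsn_nonneg (A : Matrix n m ℝ) : 0 ≤ hsn A := Real.sqrt_nonneg _

theorem hsn_sq (A : Matrix n m ℝ) : hsn A ^ 2 = hs A := Real.sq_sqrt (hs_nonneg A)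

theorem hsn_eq_norm (A : Matrix n m ℝ) :
    hsn A = ‖(WithLp.toLp 2 (fun p : n × m => A p.1 p.2) : EuclideanSpace ℝ (n × m))‖ := by
  rw [EuclideanSpace.norm_eq, hsn, hs, Fintype.sum_prod_type]
  simp

theorem hsn_add (A B : Matrix n m ℝ) : hsn (A + B) ≤ hsn A + hsn B := by
  rw [hsn_eq_norm, hsn_eq_norm, hsn_eq_norm]
  exact norm_add_le (WithLp.toLp 2 (fun p : n × m => A p.1 p.2) : EuclideanSpace ℝ (n × m))
    (WithLp.toLp 2 (fun p : n × m => B p.1 p.2))

theorem hsn_smul (c : ℝ) (hc : 0 ≤ c) (A : Matrix n m ℝ) : hsn (c • A) = c * hsn A := by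
  unfold hsn hs
  have : ∑ i, ∑ j, (c • A) i j ^ 2 = c ^ 2 * ∑ i, ∑ j, A i j ^ 2 := by
    rw [mul_sum]
    refine sum_congr rfl fun i _ => ?_
    rw [mul_sum]
    refine sum_congr rfl fun j _ => ?_
    rw [Matrix.smul_apply, smul_eq_mul]; ring
  rw [this, Real.sqrt_mul (sq_nonneg c), Real.sqrt_sq hc]

theorem hsn_zero : hsn (0 : Matrix n m ℝ) = 0 := by
  unfold hsn hs; simp

theorem hsn_sum {ι : Type} (s : Finset ι) (A : ι → Matrix n m ℝ) :
    hsn (∑ i ∈ s, A i) ≤ ∑ i ∈ s, hsn (A i) := by
  classical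
  induction s using Finset.induction_on with
  | empty => simp [hsn_zero]
  | insert i s hi ih =>
    rw [sum_insert hi, sum_insert hi]
    exact (hsn_add _ _).trans (add_le_add le_rfl ih)

theorem hs_transpose_mul_self (X : Matrix n m ℝ) : hs (Xᵀ * X) = hs (X * Xᵀ) := by
  rw [hs_eq_trace, hs_eq_trace]
  simp only [Matrix.transpose_mul, Matrix.transpose_transpose]
  rw [Matrix.mul_assoc, Matrix.trace_mul_comm]
  congr 1
  simp only [Matrix.mul_assoc]

end norm

section sqrt

variable {n : Type} [Fintype n] [DecidableEq n]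

/-- square roots of positive semidefinite matrices -/
theorem exists_sqrt {A : Matrix n n ℝ} (hA : A.PosSemidef) :
    ∃ B : Matrix n n ℝ, B.PosSemidef ∧ Bᵀ = B ∧ B * B = A := by
  have hsym : Aᵀ = A := by
    have h1 := hA.1
    rwa [Matrix.IsHermitian, Matrix.conjTranspose_eq_transpose_of_trivial] at h1
  obtain ⟨U, d, hU1, hU2, hd⟩ := exists_diag A hsym
  have hdp : (Matrix.diagonal d).PosSemidef := by rw [← hd]; exact psd_conj hA U
  have hd0 : ∀ i, 0 ≤ d i := Matrix.posSemidef_diagonal_iff.1 hdp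
  have hD : (Matrix.diagonal fun i => Real.sqrt (d i)).PosSemidef :=
    Matrix.posSemidef_diagonal_iff.2 fun i => Real.sqrt_nonneg _
  refine ⟨U * (Matrix.diagonal fun i => Real.sqrt (d i)) * Uᵀ, ?_, ?_, ?_⟩
  · have := psd_conj hD Uᵀ
    rwa [Matrix.transpose_transpose] at this
  · simp only [Matrix.transpose_mul, Matrix.transpose_transpose, Matrix.diagonal_transpose,
      Matrix.mul_assoc]
  · calc U * (Matrix.diagonal fun i => Real.sqrt (d i)) * Uᵀ *
        (U * (Matrix.diagonal fun i => Real.sqrt (d i)) * Uᵀ)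
        = U * (Matrix.diagonal fun i => Real.sqrt (d i)) * (Uᵀ * U) *
          (Matrix.diagonal fun i => Real.sqrt (d i)) * Uᵀ := by simp only [Matrix.mul_assoc]
      _ = U * ((Matrix.diagonal fun i => Real.sqrt (d i)) *
          (Matrix.diagonal fun i => Real.sqrt (d i))) * Uᵀ := by
          rw [hU1]; simp only [Matrix.mul_one, Matrix.mul_assoc]
      _ = U * (Uᵀ * A * U) * Uᵀ := by
          rw [Matrix.diagonal_mul_diagonal, hd]
          congr 3
          ext i
          exact Real.mul_self_sqrt (hd0 i)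
      _ = (U * Uᵀ) * A * (U * Uᵀ) := by simp only [Matrix.mul_assoc]
      _ = A := by rw [hU2, Matrix.one_mul, Matrix.mul_one]

end sqrt

/-! ### The weights -/

/-- `e_x(z)`: the indicator of the pinned letter -/
def ev {S : Type} [DecidableEq S] (z : S) : Option S → ℝ
  | none => 1
  | some t => if z = t then 1 else 0

/-- number of pinned letters -/
def wt {S : Type} : Option S → ℕ
  | none => 0
  | some _ => 1

/-- one coordinate: `v z` psd with mean `g`; the matrix `G` has blocks indexed by `Option S` -/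
theorem one_coord {K S : Type} [Fintype K] [DecidableEq K] [Fintype S] [DecidableEq S]
    (v : S → Matrix K K ℝ) (g : Matrix K K ℝ) (hv : ∀ z, (v z).PosSemidef) (hg : g.PosSemidef)
    (om : ℝ) (hom : 0 < om) :
    ∃ G : Matrix (Option S × K) (Option S × K) ℝ, G.PosSemidef ∧
      (∀ z k l, ∑ x, ∑ y, (om⁻¹ ^ wt x * ev z x) * (om⁻¹ ^ wt y * ev z y) * G (x, k) (y, l) =
        v z k l) ∧
      hsn G ≤ hsn g + om ^ 2 * ∑ z, hsn (v z - g) := by
  obtain ⟨A, hA, hAt, hAA⟩ := exists_sqrt hg
  choose B hB hBt hBB using fun z => exists_sqrt (hv z)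
  -- the rectangular matrix
  obtain ⟨X, hXn, hXs⟩ : ∃ X : Matrix K (Option S × K) ℝ, (∀ k j, X k (none, j) = A k j) ∧
      ∀ k t j, X k (some t, j) = om * (B t - A) k j :=
    ⟨Matrix.of fun k p => match p.1 with
      | none => A k p.2
      | some t => om * (B t - A) k p.2, fun _ _ => rfl, fun _ _ _ => rfl⟩
  refine ⟨Xᵀ * X, ?_, ?_, ?_⟩
  · have := Matrix.posSemidef_conjTranspose_mul_self X
    rwa [Matrix.conjTranspose_eq_transpose_of_trivial] at this
  · intro z k l
    have h1 : ∀ j k, ∑ x, (om⁻¹ ^ wt x * ev z x) * X j (x, k) = B z j k := by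
      intro j k
      rw [Fintype.sum_option]
      have : ∀ t : S, (om⁻¹ ^ wt (some t) * ev z (some t)) * X j (some t, k) =
          if z = t then (B t - A) j k else 0 := by
        intro t
        rw [hXs]
        simp only [wt, ev, pow_one]
        by_cases h : z = t
        · simp only [h, if_true]
          field_simp
        · simp only [h, if_false]; ring
      rw [sum_congr rfl fun t _ => this t, sum_ite_eq, if_pos (mem_univ z), hXn]
      simp only [wt, ev, pow_zero, Matrix.sub_apply]
      ring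
    rw [← hBB z]
    calc ∑ x, ∑ y, (om⁻¹ ^ wt x * ev z x) * (om⁻¹ ^ wt y * ev z y) * (Xᵀ * X) (x, k) (y, l)
        = ∑ x, ∑ y, ∑ j, ((om⁻¹ ^ wt x * ev z x) * X j (x, k)) *
            ((om⁻¹ ^ wt y * ev z y) * X j (y, l)) := by
          refine sum_congr rfl fun x _ => sum_congr rfl fun y _ => ?_
          rw [Matrix.mul_apply, mul_sum]
          refine sum_congr rfl fun j _ => ?_
          rw [Matrix.transpose_apply]; ring
      _ = ∑ j, (∑ x, (om⁻¹ ^ wt x * ev z x) * X j (x, k)) *
            (∑ y, (om⁻¹ ^ wt y * ev z y) * X j (y, l)) := by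
          rw [sum_congr rfl fun x _ => sum_comm, sum_comm]
          refine sum_congr rfl fun j _ => ?_
          rw [sum_mul_sum]
      _ = (B z * B z) k l := by
          rw [Matrix.mul_apply]
          refine sum_congr rfl fun j _ => ?_
          rw [h1, h1]
          congr 1
          exact congrFun (congrFun (hBt z) k) j
  · have hXX : X * Xᵀ = g + ∑ t, (om ^ 2) • ((B t - A) * (B t - A)) := by
      ext k l
      rw [Matrix.mul_apply, Fintype.sum_prod_type, Fintype.sum_option, Matrix.add_apply,
        ← hAA, Matrix.mul_apply, Matrix.sum_apply]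
      congr 1
      · refine sum_congr rfl fun j _ => ?_
        rw [Matrix.transpose_apply, hXn, hXn]
        congr 1
        exact (congrFun (congrFun hAt l) j).symm
      · refine sum_congr rfl fun t _ => ?_
        rw [Matrix.smul_apply, Matrix.mul_apply, smul_eq_mul, mul_sum]
        refine sum_congr rfl fun j _ => ?_
        have hsym : (B t - A) l j = (B t - A) j l := by
          have : (B t - A)ᵀ = B t - A := by rw [Matrix.transpose_sub, hBt t, hAt]
          exact (congrFun (congrFun this l) j).symm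
        rw [Matrix.transpose_apply, hXs, hXs, hsym]; ring
    have h0 : hsn (Xᵀ * X) = hsn (X * Xᵀ) := by
      unfold hsn; rw [hs_transpose_mul_self]
    rw [h0, hXX]
    refine (hsn_add _ _).trans (add_le_add le_rfl ?_)
    refine (hsn_sum _ _).trans ?_
    rw [mul_sum]
    refine sum_le_sum fun t _ => ?_
    rw [hsn_smul _ (sq_nonneg om)]
    refine mul_le_mul_of_nonneg_left ?_ (sq_nonneg om)
    refine Real.sqrt_le_sqrt ?_
    have := mat_ineq (B t) A (hB t) hA
    rwa [hBB t, hAA] at this

end Pool.Agent.H62.SDP
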